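import Pool.Agent.Helper30.UP.St

set_option autoImplicit false

namespace Pool.Agent.Helper45.UP

open Finset Pool.Agent.Helper30.UP
open scoped Classical

theorem sum_Fh {c n : ℕ} (s : Fin n → E c) (hs : ∀ i, s i ≠ 0) : ∑ x : E c, Fh s x = 0 := by
  unfold Fh
  rw [Finset.sum_comm]
  refine Finset.sum_eq_zero fun i _ => ?_
  rw [sum_chi, if_neg (hs i)]

theorem conv_Fh {c n : ℕ} (s : Fin n → E c) (hs : Function.Injective s) (z : E c) :
    ∑ y : E c, Fh s y * Fh s (z + y) = (2 : ℝ) ^ c * Fh s z := by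
  unfold Fh
  have h1 : ∀ y : E c, (∑ i, chi y (s i)) * (∑ j, chi (z + y) (s j)) =
      ∑ i, ∑ j, chi z (s j) * chi y (s i + s j) := by
    intro y
    rw [Finset.sum_mul_sum]
    refine Finset.sum_congr rfl fun i _ => Finset.sum_congr rfl fun j _ => ?_
    rw [chi_add_left, chi_add_right]
    ring
  rw [Finset.sum_congr rfl fun y _ => h1 y, Finset.sum_comm]
  have h2 : ∀ i, ∑ y : E c, ∑ j, chi z (s j) * chi y (s i + s j) = chi z (s i) * (2 : ℝ) ^ c := by
    intro i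
    rw [Finset.sum_comm]
    have h3 : ∀ j, ∑ y : E c, chi z (s j) * chi y (s i + s j) =
        if i = j then chi z (s j) * (2 : ℝ) ^ c else 0 := by
      intro j
      rw [← Finset.mul_sum, sum_chi]
      by_cases hij : i = j
      · rw [if_pos hij, if_pos (by rw [hij]; exact E_add_self _)]
      · rw [if_neg hij, if_neg (fun h => hij (hs ((E_add_eq_zero _ _).1 h)))]
        ring
    rw [Finset.sum_congr rfl fun j _ => h3 j, Finset.sum_ite_eq]
    simp
  rw [Finset.sum_congr rfl fun i _ => h2 i, ← Finset.sum_mul]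
  ring

theorem hC1 : StC1 := by
  intro K T c n D s hK hT hyp
  obtain ⟨hD, hnK, ⟨hinj, hnz⟩, hdiv, hlow, hTn, hTD⟩ := hyp
  have hn1 : (1 : ℝ) ≤ n := hT.trans hTn
  have hD1 : (1 : ℝ) ≤ D := by exact_mod_cast hD
  have hK1 : (1 : ℝ) ≤ K := by exact_mod_cast hK
  have hnKR : (n : ℝ) ≤ K * D := by exact_mod_cast hnK
  have hNpos : (0 : ℝ) < (2 : ℝ) ^ c := by positivity
  have hcardN : ((Finset.univ : Finset (E c)).card : ℝ) = (2 : ℝ) ^ c := by
    rw [Finset.card_univ, card_E]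
    push_cast
    rfl
  have hS1 := sum_Fh s hnz
  have hS2 : ∑ x : E c, (Fh s x) ^ 2 = (2 : ℝ) ^ c * n := by
    have h := parseval_inj (Finset.univ : Finset (Fin n)) s (fun i _ j _ h => hinj h)
    rw [Finset.card_univ, Fintype.card_fin] at h
    exact h
  obtain ⟨x0, -, hx0⟩ := Finset.exists_min_image (Finset.univ : Finset (E c)) (Fh s) ⟨0, Finset.mem_univ _⟩
  set τ := Fh s x0 with hτ
  have hmin : ∀ x, τ ≤ Fh s x := fun x => hx0 x (Finset.mem_univ _)
  have hmem : ∀ x, x ∈ Ds s ↔ τ < Fh s x := by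
    intro x
    unfold Ds
    rw [Finset.mem_filter]
    constructor
    · rintro ⟨-, y, hy⟩
      exact lt_of_le_of_lt (hmin y) hy
    · intro h
      exact ⟨Finset.mem_univ _, x0, h⟩
  have hout : ∀ x, x ∉ Ds s → Fh s x = τ := by
    intro x hx
    rw [hmem, not_lt] at hx
    exact le_antisymm hx (hmin x)
  have hTτ : -T ≤ τ := hlow x0
  have hτ0 : τ ≤ 0 := by
    by_contra h
    push Not at h
    have : (Finset.univ : Finset (E c)).card • τ ≤ ∑ x : E c, Fh s x :=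
      Finset.card_nsmul_le_sum _ _ _ (fun x _ => hmin x)
    rw [hS1, nsmul_eq_mul, hcardN] at this
    nlinarith
  have h0 : (0 : E c) ∈ Ds s := by
    rw [hmem, Fh_zero]
    linarith
  -- integrality
  have hin : ∀ x ∈ Ds s, τ + 2 * D ≤ Fh s x := by
    intro x hx
    rw [hmem] at hx
    obtain ⟨q, hq⟩ := hdiv x
    obtain ⟨q0, hq0⟩ := hdiv x0
    rw [hτ, Fh_eq, Fh_eq] at hx
    rw [hτ, Fh_eq, Fh_eq]
    rw [hq, hq0] at hx ⊢
    push_cast at hx ⊢
    have h1 : (D : ℝ) * q < D * q0 := by linarith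
    have h2 : q < q0 := by
      have h3 : D * q < D * q0 := by exact_mod_cast h1
      exact lt_of_mul_lt_mul_left h3 (Nat.zero_le _)
    have h3 : (q : ℝ) + 1 ≤ q0 := by exact_mod_cast h2
    nlinarith
  have hττ : 0 ≤ τ + τ ^ 2 := by
    have hz : ∃ t : ℤ, τ = (t : ℝ) := ⟨(n : ℤ) - 2 * (wt s x0 : ℤ), by rw [hτ, Fh_eq]; push_cast; ring⟩
    obtain ⟨t, ht⟩ := hz
    rw [ht] at hτ0 ⊢
    have ht0 : t ≤ 0 := by exact_mod_cast hτ0
    have : (0 : ℤ) ≤ t + t ^ 2 := by nlinarith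
    exact_mod_cast this
  -- g
  set g : E c → ℝ := fun x => Fh s x - τ with hg
  have hg0 : ∀ x, 0 ≤ g x := fun x => sub_nonneg.2 (hmin x)
  have hgout : ∀ x, x ∉ Ds s → g x = 0 := fun x hx => by rw [hg]; simp only; rw [hout x hx, sub_self]
  have hgin : ∀ x ∈ Ds s, 2 * (D : ℝ) ≤ g x := fun x hx => by
    have := hin x hx
    rw [hg]; simp only; linarith
  have hgle : ∀ x, g x ≤ 2 * n := fun x => by
    have := Fh_le s x
    rw [hg]; simp only; linarith
  have hsumg : ∑ x, g x = -τ * (2 : ℝ) ^ c := by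
    rw [hg]
    simp only [Finset.sum_sub_distrib, hS1, Finset.sum_const, nsmul_eq_mul, hcardN]
    ring
  have hsumgD : ∑ x ∈ Ds s, g x = ∑ x, g x :=
    Finset.sum_subset (Finset.subset_univ _) (fun x _ hx => hgout x hx)
  have hcard1 : 2 * (D : ℝ) * (Ds s).card ≤ T * (2 : ℝ) ^ c := by
    have h1 : (Ds s).card • (2 * (D : ℝ)) ≤ ∑ x ∈ Ds s, g x :=
      Finset.card_nsmul_le_sum _ _ _ hgin
    rw [hsumgD, hsumg, nsmul_eq_mul] at h1
    nlinarith
  have hDsc : (0 : ℝ) ≤ ((Ds s).card : ℝ) := by positivity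
  have hcard2 : (2 : ℝ) ^ c ≤ 4 * n * (Ds s).card := by
    have h1 : ∑ x, g x ^ 2 = (2 : ℝ) ^ c * (n + τ ^ 2) := by
      have h2 : ∀ x, g x ^ 2 = Fh s x ^ 2 - 2 * τ * Fh s x + τ ^ 2 := by
        intro x
        rw [hg]
        ring
      rw [Finset.sum_congr rfl fun x _ => h2 x, Finset.sum_add_distrib, Finset.sum_sub_distrib,
        ← Finset.mul_sum, hS1, hS2, Finset.sum_const, nsmul_eq_mul, hcardN]
      ring
    have h2 : ∑ x ∈ Ds s, g x ^ 2 = ∑ x, g x ^ 2 :=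
      Finset.sum_subset (Finset.subset_univ _) (fun x _ hx => by rw [hgout x hx]; norm_num)
    have h3 : ∑ x ∈ Ds s, g x ^ 2 ≤ (Ds s).card • (4 * (n : ℝ) ^ 2) := by
      refine Finset.sum_le_card_nsmul _ _ _ fun x _ => ?_
      have := hgle x
      have := hg0 x
      nlinarith
    rw [h2, h1, nsmul_eq_mul] at h3
    have h4 : (2 : ℝ) ^ c * n ≤ (4 * n * (Ds s).card) * n := by nlinarith [sq_nonneg τ]
    exact le_of_mul_le_mul_right h4 (by linarith)
  -- convolution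
  have hshift : ∀ z : E c, ∑ y : E c, Fh s (z + y) = 0 := by
    intro z
    rw [← hS1]
    exact Fintype.sum_equiv (Equiv.addLeft z) _ _ (fun y => rfl)
  have hconv : ∀ z, ∑ y, g y * g (z + y) = (2 : ℝ) ^ c * (Fh s z + τ ^ 2) := by
    intro z
    have h2 : ∀ y, g y * g (z + y) = Fh s y * Fh s (z + y) - τ * Fh s y - τ * Fh s (z + y) + τ ^ 2 := by
      intro y
      rw [hg]
      ring
    rw [Finset.sum_congr rfl fun x _ => h2 x, Finset.sum_add_distrib, Finset.sum_sub_distrib,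
      Finset.sum_sub_distrib, ← Finset.mul_sum, ← Finset.mul_sum, conv_Fh s hinj, hshift, hS1,
      Finset.sum_const, nsmul_eq_mul, hcardN]
    ring
  have hconvR : ∀ z, ∑ y ∈ (Ds s).filter (fun y => z + y ∈ Ds s), g y * g (z + y) =
      ∑ y, g y * g (z + y) := by
    intro z
    refine Finset.sum_subset (Finset.subset_univ _) (fun y _ hy => ?_)
    rw [Finset.mem_filter, not_and_or] at hy
    rcases hy with h | h
    · rw [hgout y h, zero_mul]
    · rw [hgout _ h, mul_zero]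
  have hlo : ∀ z, 4 * (D : ℝ) ^ 2 * rr s z ≤ (2 : ℝ) ^ c * (Fh s z + τ ^ 2) := by
    intro z
    rw [← hconv, ← hconvR]
    have h1 : ((Ds s).filter (fun y => z + y ∈ Ds s)).card • (4 * (D : ℝ) ^ 2) ≤
        ∑ y ∈ (Ds s).filter (fun y => z + y ∈ Ds s), g y * g (z + y) := by
      refine Finset.card_nsmul_le_sum _ _ _ fun y hy => ?_
      rw [Finset.mem_filter] at hy
      have h2 := hgin y hy.1
      have h3 := hgin _ hy.2
      nlinarith
    rw [nsmul_eq_mul] at h1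
    unfold rr
    linarith
  have hhi : ∀ z, (2 : ℝ) ^ c * (Fh s z + τ ^ 2) ≤ 4 * (n : ℝ) ^ 2 * rr s z := by
    intro z
    rw [← hconv, ← hconvR]
    have h1 : ∑ y ∈ (Ds s).filter (fun y => z + y ∈ Ds s), g y * g (z + y) ≤
        ((Ds s).filter (fun y => z + y ∈ Ds s)).card • (4 * (n : ℝ) ^ 2) := by
      refine Finset.sum_le_card_nsmul _ _ _ fun y _ => ?_
      have h2 := hgle y
      have h3 := hgle (z + y)
      have h4 := hg0 y
      have h5 := hg0 (z + y)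
      nlinarith [mul_le_mul h2 h3 h5 (by linarith)]
    rw [nsmul_eq_mul] at h1
    unfold rr
    linarith
  have hn2 : (n : ℝ) ^ 2 ≤ (K : ℝ) ^ 2 * (D : ℝ) ^ 2 := by
    rw [← mul_pow]
    exact pow_le_pow_left₀ (by linarith) hnKR 2
  have hτT : τ ^ 2 ≤ T ^ 2 := by nlinarith
  refine ⟨h0, ?_, hcard2, ?_, ?_, τ, hTτ, hτ0, hout, fun x hx => ⟨hin x hx, ?_⟩⟩
  · calc 2 * (n : ℝ) * (Ds s).card ≤ 2 * (K * D) * (Ds s).card := by gcongr
      _ = K * (2 * D * (Ds s).card) := by ring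
      _ ≤ K * (T * 2 ^ c) := by gcongr
      _ = T * K * 2 ^ c := by ring
  · intro z hz
    have h1 := hlo z
    rw [hout z hz] at h1
    have hrr : (0 : ℝ) ≤ (rr s z : ℝ) := by positivity
    have h2 : 4 * (D : ℝ) ^ 2 * rr s z ≤ (4 * n * (Ds s).card) * T ^ 2 := by
      calc 4 * (D : ℝ) ^ 2 * rr s z ≤ 2 ^ c * (τ + τ ^ 2) := h1
        _ ≤ 2 ^ c * T ^ 2 := by gcongr; linarith
        _ ≤ _ := by gcongr
    have h3 : (n : ℝ) ^ 2 * rr s z ≤ (K : ℝ) ^ 2 * (D : ℝ) ^ 2 * rr s z := by gcongr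
    have h4 : n * (n * (rr s z : ℝ)) ≤ n * (T ^ 2 * (K : ℝ) ^ 2 * (Ds s).card) := by
      have h5 : (K : ℝ) ^ 2 * (4 * (D : ℝ) ^ 2 * rr s z) ≤ (K : ℝ) ^ 2 * ((4 * n * (Ds s).card) * T ^ 2) := by
        gcongr
      nlinarith
    exact le_of_mul_le_mul_left h4 (by linarith)
  · intro z hz
    have h1 := hhi z
    have h2 := hin z hz
    have hrr : (0 : ℝ) ≤ (rr s z : ℝ) := by positivity
    have h3 : (2 : ℝ) ^ c * (2 * D) ≤ 4 * ((K : ℝ) ^ 2 * (D : ℝ) ^ 2) * rr s z := by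
      calc (2 : ℝ) ^ c * (2 * D) ≤ 2 ^ c * (Fh s z + τ ^ 2) := by gcongr; linarith
        _ ≤ 4 * (n : ℝ) ^ 2 * rr s z := h1
        _ ≤ _ := by gcongr
    have h4 : T * ((2 : ℝ) ^ c * (2 * D)) ≤ T * (4 * ((K : ℝ) ^ 2 * (D : ℝ) ^ 2) * rr s z) := by
      gcongr
    have h5 : (2 * D) * (2 * (D : ℝ) * (Ds s).card) ≤ (2 * D) * (T * (2 : ℝ) ^ c) := by gcongr
    have h6 : (4 * (D : ℝ) ^ 2) * ((Ds s).card : ℝ) ≤ (4 * (D : ℝ) ^ 2) * (T * (K : ℝ) ^ 2 * rr s z) := by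
      nlinarith
    exact le_of_mul_le_mul_left h6 (by positivity)
  · have := hin x hx
    linarith

end Pool.Agent.Helper45.UP
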