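import Pool.Agent.Helper30.UP.St

set_option autoImplicit false

namespace Pool.Agent.Helper45.UP

open Finset Pool.Agent.Helper30.UP
open scoped Classical Pointwise

theorem card_span_le {c : ℕ} (X : Finset (E c)) :
    Nat.card ↥(Submodule.span (ZMod 2) (X : Set (E c))) ≤ 2 ^ X.card := by
  rw [Module.natCard_eq_pow_finrank (K := ZMod 2), Nat.card_zmod]
  exact Nat.pow_le_pow_right (by norm_num) (finrank_span_finset_le_card X)

theorem hFR : StFR := by
  intro K hK
  refine ⟨2 ^ ⌊K ^ 4⌋₊ * K, ?_⟩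
  intro c B hB hBB
  have hBpos : (0 : ℝ) < (B.card : ℝ) := by exact_mod_cast hB.card_pos
  -- Pluennecke
  have hPl : (((4 • B).card : ℕ) : ℝ) ≤ K ^ 4 * (B.card : ℝ) := by
    have h := Finset.pluennecke_ruzsa_inequality_nsmul_add hB B 4
    have h' : (((4 • B).card : ℕ) : ℝ) ≤ (((B + B).card : ℝ) / (B.card : ℝ)) ^ 4 * (B.card : ℝ) := by
      have h2 : (((((4 • B).card : ℕ) : ℚ≥0) : ℚ≥0) : ℝ) ≤
          ((((((B + B).card : ℕ) : ℚ≥0) / ((B.card : ℕ) : ℚ≥0)) ^ 4 * ((B.card : ℕ) : ℚ≥0) : ℚ≥0) : ℝ) := by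
        exact_mod_cast h
      push_cast at h2
      exact h2
    refine h'.trans ?_
    refine mul_le_mul_of_nonneg_right ?_ hBpos.le
    refine pow_le_pow_left₀ (by positivity) ?_ 4
    rw [div_le_iff₀ hBpos]
    exact hBB
  have h3B : (3 • B).Nonempty := hB.nsmul
  have hcov : (((3 • B + B).card : ℕ) : ℝ) ≤ K ^ 4 * (B.card : ℝ) := by
    have : 3 • B + B = 4 • B := by
      rw [show (4 : ℕ) = 3 + 1 from rfl, add_nsmul, one_nsmul]
    rw [this]
    exact hPl
  obtain ⟨X, -, hXc, hX⟩ := Finset.ruzsa_covering_add hB hcov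
  set H := Submodule.span (ZMod 2) (X : Set (E c)) with hH
  have hXcard : X.card ≤ ⌊K ^ 4⌋₊ := Nat.le_floor hXc
  let S : Finset (E c) := el H + (B + B)
  have hS0 : (0 : E c) ∈ S := by
    obtain ⟨b, hb⟩ := hB
    refine Finset.mem_add.2 ⟨0, ?_, 0, ?_, add_zero _⟩
    · rw [mem_el]; exact H.zero_mem
    · exact Finset.mem_add.2 ⟨b, hb, b, hb, E_add_self b⟩
  have hq : ∀ x ∈ Submodule.span (ZMod 2) (B : Set (E c)), ∀ y ∈ S, x + y ∈ S := by
    intro x hx
    induction hx using Submodule.span_induction with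
    | mem b hb =>
      intro y hy
      obtain ⟨h, hh, d, hd, rfl⟩ := Finset.mem_add.1 hy
      obtain ⟨b1, hb1, b2, hb2, rfl⟩ := Finset.mem_add.1 hd
      have hb3 : b + b1 + b2 ∈ 3 • B := by
        rw [show (3 : ℕ) = 1 + 1 + 1 from rfl, add_nsmul, add_nsmul, one_nsmul]
        exact Finset.add_mem_add (Finset.add_mem_add hb hb1) hb2
      obtain ⟨x', hx', d', hd', he⟩ := Finset.mem_add.1 (hX hb3)
      obtain ⟨b3, hb3', b4, hb4, rfl⟩ := Finset.mem_sub.1 hd'
      refine Finset.mem_add.2 ⟨h + x', ?_, b3 + b4, Finset.add_mem_add hb3' hb4, ?_⟩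
      · rw [mem_el] at hh ⊢
        exact H.add_mem hh (Submodule.subset_span hx')
      · have e1 : b3 - b4 = b3 + b4 := by rw [sub_eq_add_neg, E_neg]
        rw [e1] at he
        calc h + x' + (b3 + b4) = h + (x' + (b3 + b4)) := by abel
          _ = h + (b + b1 + b2) := by rw [he]
          _ = b + (h + (b1 + b2)) := by abel
    | zero =>
      intro y hy
      rwa [zero_add]
    | add x1 x2 _ _ h1 h2 =>
      intro y hy
      rw [add_assoc]
      exact h1 _ (h2 _ hy)
    | smul a x _ h =>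
      intro y hy
      rcases z2 a with rfl | rfl
      · rwa [zero_smul, zero_add]
      · rw [one_smul]
        exact h _ hy
  have hsub : el (Submodule.span (ZMod 2) (B : Set (E c))) ⊆ S := by
    intro x hx
    rw [mem_el] at hx
    have := hq x hx 0 hS0
    rwa [add_zero] at this
  have h1 : Nat.card ↥(Submodule.span (ZMod 2) (B : Set (E c))) ≤ S.card := by
    rw [← card_el]
    exact Finset.card_le_card hsub
  have h2 : S.card ≤ (el H).card * (B + B).card := Finset.card_add_le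
  have h3 : (el H).card ≤ 2 ^ ⌊K ^ 4⌋₊ := by
    rw [card_el]
    exact (card_span_le X).trans (Nat.pow_le_pow_right (by norm_num) hXcard)
  calc (Nat.card ↥(Submodule.span (ZMod 2) (B : Set (E c))) : ℝ)
      ≤ (((el H).card * (B + B).card : ℕ) : ℝ) := by exact_mod_cast h1.trans h2
    _ = ((el H).card : ℝ) * ((B + B).card : ℝ) := by push_cast; ring
    _ ≤ (2 ^ ⌊K ^ 4⌋₊) * (K * B.card) := by
        refine mul_le_mul ?_ hBB (by positivity) (by positivity)
        exact_mod_cast h3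
    _ = 2 ^ ⌊K ^ 4⌋₊ * K * B.card := by ring

end Pool.Agent.Helper45.UP
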